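import Pool.Agent.Lib_helper73.PQ.PI

/-!
# Project PQ (MP_05dcdc_nt), block HYP: the sum over the hyperbola
-/

set_option autoImplicit false

namespace Pool.Agent.PQ

open Finset Filter Topology

/-- the harmonic sum -/
theorem hyp_harm (J : ℕ) (hJ : 1 ≤ J) : ∑ j ∈ Icc 1 J, (1 : ℝ) / j ≤ 1 + Real.log J := by
  have h := harmonic_le_one_add_log J
  rw [harmonic_eq_sum_Icc] at h
  push_cast at h
  simpa [one_div] using h

/-- one dyadic block -/
theorem hyp_block {C : ℝ} (hC : 0 < C)
    (hpi : ∀ x : ℕ, 2 ≤ x → ((prm x).card : ℝ) ≤ C * x / Real.log x) (X : ℕ) (hX : 4 ≤ X) (j : ℕ) (hj : 1 ≤ j) :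
    ∑ p ∈ ((prm (X / 2)).filter (fun p : ℕ => Real.sqrt X < p)).filter (fun p : ℕ => Nat.log 2 (X / p) = j),
      ((X : ℝ) / p) / Real.log ((X : ℝ) / p) ≤ (4 * C / Real.log 2) * (X / Real.log X) * (1 / j) := by
  have hX0 : (0 : ℝ) < X := by exact_mod_cast (by omega : 0 < X)
  have hX4 : (4 : ℝ) ≤ X := by exact_mod_cast hX
  have hLX : 0 < Real.log X := Real.log_pos (by linarith)
  have hl2 : 0 < Real.log 2 := Real.log_pos (by norm_num)
  have hj0 : (0 : ℝ) < j := by exact_mod_cast hj
  set S := ((prm (X / 2)).filter (fun p : ℕ => Real.sqrt X < p)).filter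
    (fun p : ℕ => Nat.log 2 (X / p) = j) with hS
  have hsX : (2 : ℝ) ≤ Real.sqrt X := by
    have : (2 : ℝ) = Real.sqrt 4 := by
      rw [show (4 : ℝ) = 2 ^ 2 by norm_num, Real.sqrt_sq (by norm_num)]
    rw [this]; exact Real.sqrt_le_sqrt hX4
  -- facts for a member
  have hmem : ∀ p ∈ S, p.Prime ∧ Real.sqrt X < p ∧ 2 ^ j ≤ X / p ∧ X / p < 2 ^ (j + 1) ∧ p ≤ X / 2 ^ j := by
    intro p hp
    rw [hS, mem_filter, mem_filter] at hp
    obtain ⟨⟨hp1, hp2⟩, hp3⟩ := hp
    unfold prm at hp1
    rw [mem_filter, mem_Icc] at hp1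
    obtain ⟨⟨hp1a, hp1b⟩, hp1c⟩ := hp1
    have hXp : 2 ≤ X / p := by
      rw [Nat.le_div_iff_mul_le hp1c.pos]
      omega
    have h1 : 2 ^ j ≤ X / p := by
      rw [← hp3]; exact Nat.pow_log_le_self 2 (by omega)
    have h2 : X / p < 2 ^ (j + 1) := by
      rw [← hp3]; exact Nat.lt_pow_succ_log_self (by norm_num) _
    refine ⟨hp1c, hp2, h1, h2, ?_⟩
    rw [Nat.le_div_iff_mul_le (by positivity)]
    rw [Nat.le_div_iff_mul_le hp1c.pos] at h1
    rwa [mul_comm]
  rcases S.eq_empty_or_nonempty with hE | ⟨p0, hp0⟩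
  · rw [hE, sum_empty]; positivity
  · obtain ⟨-, a2, -, -, a5⟩ := hmem p0 hp0
    set N := X / 2 ^ j with hN
    have hNs : Real.sqrt X < N := lt_of_lt_of_le a2 (by exact_mod_cast a5)
    have hN2 : 2 ≤ N := by
      have : (2 : ℝ) ≤ N := hsX.trans hNs.le
      exact_mod_cast this
    have hN0 : (0 : ℝ) < N := by exact_mod_cast (by omega : 0 < N)
    have hlN : Real.log X / 2 ≤ Real.log N := by
      rw [← Real.log_sqrt hX0.le]
      exact Real.log_le_log (by linarith) hNs.le
    have hcard : (S.card : ℝ) ≤ (prm N).card := by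
      have : S ⊆ prm N := by
        intro p hp
        obtain ⟨b1, -, -, -, b5⟩ := hmem p hp
        unfold prm
        rw [mem_filter, mem_Icc]
        exact ⟨⟨b1.one_lt.le, b5⟩, b1⟩
      exact_mod_cast card_le_card this
    have hNX : (N : ℝ) ≤ X / 2 ^ j := by
      rw [hN]
      have := @Nat.cast_div_le ℝ _ _ _ X (2 ^ j)
      push_cast at this
      exact this
    have hterm : ∀ p ∈ S, ((X : ℝ) / p) / Real.log ((X : ℝ) / p) ≤ 2 ^ (j + 1) / (j * Real.log 2) := by
      intro p hp
      obtain ⟨b1, -, b3, b4, -⟩ := hmem p hp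
      have hp0 : (0 : ℝ) < p := by exact_mod_cast b1.pos
      have c1 : (X : ℝ) / p < 2 ^ (j + 1) := by
        have : X / p + 1 ≤ 2 ^ (j + 1) := b4
        have h2 : (X : ℝ) / p < (X / p : ℕ) + 1 := by
          rw [div_lt_iff₀ hp0]
          have := Nat.lt_mul_div_succ X b1.pos
          have h3 : (X : ℝ) < p * ((X / p : ℕ) + 1) := by exact_mod_cast this
          linarith
        refine lt_of_lt_of_le h2 ?_
        exact_mod_cast this
      have c2 : (2 : ℝ) ^ j ≤ (X : ℝ) / p := by
        rw [le_div_iff₀ hp0]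
        have h1 : 2 ^ j * p ≤ X := by
          rwa [Nat.le_div_iff_mul_le b1.pos] at b3
        exact_mod_cast h1
      have c3 : (j : ℝ) * Real.log 2 ≤ Real.log ((X : ℝ) / p) := by
        rw [← Real.log_pow]
        exact Real.log_le_log (by positivity) c2
      exact div_le_div₀ (by positivity) c1.le (by positivity) c3
    have hNC := hpi N hN2
    have hNC2 : ((prm N).card : ℝ) ≤ 2 * C * (X / 2 ^ j) / Real.log X := by
      refine hNC.trans ?_
      rw [div_le_div_iff₀ (by linarith [half_pos hLX]) hLX]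
      calc C * N * Real.log X = 2 * C * N * (Real.log X / 2) := by ring
        _ ≤ 2 * C * N * Real.log N := mul_le_mul_of_nonneg_left hlN (by positivity)
        _ ≤ 2 * C * (X / 2 ^ j) * Real.log N := by
            apply mul_le_mul_of_nonneg_right _ (by linarith [half_pos hLX])
            exact mul_le_mul_of_nonneg_left hNX (by positivity)
    calc ∑ p ∈ S, ((X : ℝ) / p) / Real.log ((X : ℝ) / p)
        ≤ ∑ p ∈ S, 2 ^ (j + 1) / (j * Real.log 2) := sum_le_sum hterm
      _ = S.card * (2 ^ (j + 1) / (j * Real.log 2)) := by rw [sum_const, nsmul_eq_mul]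
      _ ≤ (2 * C * (X / 2 ^ j) / Real.log X) * (2 ^ (j + 1) / (j * Real.log 2)) :=
          mul_le_mul_of_nonneg_right (hcard.trans hNC2) (by positivity)
      _ = (4 * C / Real.log 2) * (X / Real.log X) * (1 / j) := by
          rw [pow_succ]
          field_simp
          ring

/-- `p ≤ √X`: `inv_le`; `p > √X`: dyadic blocks -/
theorem sum_hyp : ∃ C : ℝ, 0 < C ∧ ∃ X₀ : ℕ, ∀ X : ℕ, X₀ ≤ X →
    ∑ p ∈ prm (X / 2), ((X : ℝ) / p) / Real.log ((X : ℝ) / p) ≤
      C * (X * Real.log (Real.log X) / Real.log X) := by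
  obtain ⟨C, hC, hpi⟩ := pi_le
  obtain ⟨D, hD, hinv⟩ := inv_le
  have hl2 : 0 < Real.log 2 := Real.log_pos (by norm_num)
  have hll : Tendsto (fun N : ℕ => Real.log (Real.log N)) atTop atTop :=
    Real.tendsto_log_atTop.comp (Real.tendsto_log_atTop.comp tendsto_natCast_atTop_atTop)
  obtain ⟨X1, hX1⟩ := eventually_atTop.1 (hll.eventually_ge_atTop 1)
  refine ⟨2 * (1 + D) + (4 * C / Real.log 2) * (2 + |Real.log (Real.log 2)|), by positivity,
    max X1 16, fun X hX => ?_⟩
  have hXX1 : X1 ≤ X := (le_max_left _ _).trans hX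
  have hX16 : 16 ≤ X := (le_max_right _ _).trans hX
  have hL1 : 1 ≤ Real.log (Real.log X) := hX1 X hXX1
  have hX0 : (0 : ℝ) < X := by exact_mod_cast (by omega : 0 < X)
  have hX4 : (16 : ℝ) ≤ X := by exact_mod_cast hX16
  have hLX : 0 < Real.log X := Real.log_pos (by linarith)
  have hsX0 : 0 < Real.sqrt X := Real.sqrt_pos.2 hX0
  have hssX : Real.sqrt X * Real.sqrt X = X := Real.mul_self_sqrt hX0.le
  rw [← sum_filter_add_sum_filter_not (prm (X / 2)) (fun p : ℕ => Real.sqrt X < p)]
  -- the small primes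
  have hsmall : ∑ p ∈ (prm (X / 2)).filter (fun p : ℕ => ¬ Real.sqrt X < p),
      ((X : ℝ) / p) / Real.log ((X : ℝ) / p) ≤ 2 * (1 + D) * (X * Real.log (Real.log X) / Real.log X) := by
    have hsub : (prm (X / 2)).filter (fun p : ℕ => ¬ Real.sqrt X < p) ⊆ prm X := by
      intro p hp
      rw [mem_filter] at hp
      unfold prm at hp ⊢
      rw [mem_filter, mem_Icc] at hp ⊢
      exact ⟨⟨hp.1.1.1, by omega⟩, hp.1.2⟩
    calc ∑ p ∈ (prm (X / 2)).filter (fun p : ℕ => ¬ Real.sqrt X < p),
          ((X : ℝ) / p) / Real.log ((X : ℝ) / p)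
        ≤ ∑ p ∈ (prm (X / 2)).filter (fun p : ℕ => ¬ Real.sqrt X < p),
            (2 * X / Real.log X) * (1 / (p : ℝ)) := by
          apply sum_le_sum
          intro p hp
          rw [mem_filter] at hp
          obtain ⟨hp1, hp2⟩ := hp
          unfold prm at hp1
          rw [mem_filter, mem_Icc] at hp1
          have hp0 : (0 : ℝ) < p := by exact_mod_cast hp1.2.pos
          have hps : (p : ℝ) ≤ Real.sqrt X := not_lt.1 hp2
          have h1 : Real.sqrt X ≤ X / p := by
            rw [le_div_iff₀ hp0]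
            calc Real.sqrt X * p ≤ Real.sqrt X * Real.sqrt X :=
                  mul_le_mul_of_nonneg_left hps hsX0.le
              _ = X := hssX
          have h2 : Real.log X / 2 ≤ Real.log (X / p) := by
            rw [← Real.log_sqrt hX0.le]
            exact Real.log_le_log hsX0 h1
          calc ((X : ℝ) / p) / Real.log ((X : ℝ) / p) ≤ ((X : ℝ) / p) / (Real.log X / 2) :=
                div_le_div_of_nonneg_left (by positivity) (by positivity) h2
            _ = (2 * X / Real.log X) * (1 / (p : ℝ)) := by field_simp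
      _ ≤ ∑ p ∈ prm X, (2 * X / Real.log X) * (1 / (p : ℝ)) :=
          sum_le_sum_of_subset_of_nonneg hsub fun p _ _ => by positivity
      _ = (2 * X / Real.log X) * ∑ p ∈ prm X, (1 : ℝ) / p := by rw [mul_sum]
      _ ≤ (2 * X / Real.log X) * (Real.log (Real.log X) + D) :=
          mul_le_mul_of_nonneg_left (hinv X (by omega)) (by positivity)
      _ ≤ (2 * X / Real.log X) * ((1 + D) * Real.log (Real.log X)) := by
          apply mul_le_mul_of_nonneg_left _ (by positivity)
          nlinarith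
      _ = 2 * (1 + D) * (X * Real.log (Real.log X) / Real.log X) := by ring
  -- the large primes
  have hlarge : ∑ p ∈ (prm (X / 2)).filter (fun p : ℕ => Real.sqrt X < p),
      ((X : ℝ) / p) / Real.log ((X : ℝ) / p) ≤
        (4 * C / Real.log 2) * (2 + |Real.log (Real.log 2)|) * (X * Real.log (Real.log X) / Real.log X) := by
    set T := (prm (X / 2)).filter (fun p : ℕ => Real.sqrt X < p) with hT
    have hmap : ∀ p ∈ T, Nat.log 2 (X / p) ∈ Icc 1 (Nat.log 2 X) := by
      intro p hp
      rw [hT, mem_filter] at hp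
      unfold prm at hp
      rw [mem_filter, mem_Icc] at hp
      obtain ⟨⟨⟨-, h2⟩, h3⟩, -⟩ := hp
      rw [mem_Icc]
      constructor
      · apply Nat.log_pos (by norm_num)
        rw [Nat.le_div_iff_mul_le h3.pos]
        omega
      · exact Nat.log_mono_right (Nat.div_le_self _ _)
    rw [← sum_fiberwise_of_maps_to hmap]
    set J := Nat.log 2 X with hJ
    have hJ1 : 1 ≤ J := Nat.log_pos (by norm_num) (by omega)
    have hJX : (J : ℝ) ≤ Real.log X / Real.log 2 := by
      rw [le_div_iff₀ hl2, ← Real.log_pow]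
      apply Real.log_le_log (by positivity)
      have := Nat.pow_log_le_self 2 (by omega : X ≠ 0)
      exact_mod_cast this
    have hlJ : Real.log J ≤ Real.log (Real.log X) + |Real.log (Real.log 2)| := by
      have hJ0 : (0 : ℝ) < J := by exact_mod_cast hJ1
      calc Real.log J ≤ Real.log (Real.log X / Real.log 2) := Real.log_le_log hJ0 hJX
        _ = Real.log (Real.log X) - Real.log (Real.log 2) := Real.log_div hLX.ne' hl2.ne'
        _ ≤ _ := by linarith [neg_le_abs (Real.log (Real.log 2))]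
    calc ∑ j ∈ Icc 1 J, ∑ p ∈ T.filter (fun p : ℕ => Nat.log 2 (X / p) = j),
          ((X : ℝ) / p) / Real.log ((X : ℝ) / p)
        ≤ ∑ j ∈ Icc 1 J, (4 * C / Real.log 2) * (X / Real.log X) * (1 / (j : ℝ)) := by
          apply sum_le_sum
          intro j hj
          rw [mem_Icc] at hj
          exact hyp_block hC hpi X (by omega) j hj.1
      _ = (4 * C / Real.log 2) * (X / Real.log X) * ∑ j ∈ Icc 1 J, (1 : ℝ) / j := by rw [mul_sum]
      _ ≤ (4 * C / Real.log 2) * (X / Real.log X) * (1 + Real.log J) :=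
          mul_le_mul_of_nonneg_left (hyp_harm J hJ1) (by positivity)
      _ ≤ (4 * C / Real.log 2) * (X / Real.log X) *
            ((2 + |Real.log (Real.log 2)|) * Real.log (Real.log X)) := by
          apply mul_le_mul_of_nonneg_left _ (by positivity)
          have := abs_nonneg (Real.log (Real.log 2))
          nlinarith
      _ = (4 * C / Real.log 2) * (2 + |Real.log (Real.log 2)|) *
            (X * Real.log (Real.log X) / Real.log X) := by ring
  calc _ ≤ (4 * C / Real.log 2) * (2 + |Real.log (Real.log 2)|) * (X * Real.log (Real.log X) / Real.log X) +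
        2 * (1 + D) * (X * Real.log (Real.log X) / Real.log X) := add_le_add hlarge hsmall
    _ = _ := by ring

end Pool.Agent.PQ
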