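import Pool.Agent.Lib_helper60.PQ.Defs
import Pool.Agent.Lib_helper90.PNT.WienerIkehara
import Pool.Agent.Lib_helper68.LEV.MRT

/-!
# Project PQ (MP_05dcdc_nt), block PI: Chebyshev, Mertens, short intervals
-/

set_option autoImplicit false

namespace Pool.Agent.PQ

open Finset Filter Topology

theorem prm_card (x : ℕ) : (prm x).card = Nat.primeCounting x := by
  unfold prm Nat.primeCounting Nat.primeCounting'
  rw [Nat.count_eq_card_filter_range]
  congr 1
  ext p
  simp only [Finset.mem_filter, Finset.mem_Icc, Finset.mem_range]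
  constructor
  · rintro ⟨⟨h1, h2⟩, h3⟩; exact ⟨by omega, h3⟩
  · rintro ⟨h1, h3⟩; exact ⟨⟨h3.one_lt.le, by omega⟩, h3⟩

/-- Chebyshev upper bound -/
theorem pi_le : ∃ C : ℝ, 0 < C ∧ ∀ x : ℕ, 2 ≤ x → ((prm x).card : ℝ) ≤ C * x / Real.log x := by
  refine ⟨2 * Real.log 4 + 2, by positivity, fun x hx => ?_⟩
  have hx2 : (2 : ℝ) ≤ x := by exact_mod_cast hx
  have hx0 : (0 : ℝ) < x := by linarith
  have hL : 0 < Real.log x := Real.log_pos (by linarith)
  have h := Chebyshev.pi_le_log4_mul_div (x := (x : ℝ)) (by linarith)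
  rw [Nat.floor_natCast] at h
  rw [prm_card]
  have hls : Real.log (Real.sqrt x) = Real.log x / 2 := Real.log_sqrt hx0.le
  have hs0 : 0 < Real.sqrt x := Real.sqrt_pos.2 hx0
  have hs : Real.log x ≤ 2 * Real.sqrt x := by
    have := Real.log_le_sub_one_of_pos hs0
    linarith
  have hss : Real.sqrt x * Real.sqrt x = x := Real.mul_self_sqrt hx0.le
  rw [hls] at h
  have e1 : Real.log 4 * (x : ℝ) / (Real.log x / 2) = 2 * Real.log 4 * x / Real.log x := by
    field_simp
  have e2 : Real.sqrt x ≤ 2 * x / Real.log x := by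
    rw [le_div_iff₀ hL]
    calc Real.sqrt x * Real.log x ≤ Real.sqrt x * (2 * Real.sqrt x) :=
          mul_le_mul_of_nonneg_left hs hs0.le
      _ = 2 * x := by rw [mul_left_comm, hss]
  calc (Nat.primeCounting x : ℝ) ≤ _ := h
    _ ≤ 2 * Real.log 4 * x / Real.log x + 2 * x / Real.log x := by rw [e1]; linarith
    _ = (2 * Real.log 4 + 2) * x / Real.log x := by ring

/-- Mertens, upper bound -/
theorem inv_le : ∃ C : ℝ, 0 < C ∧ ∀ x : ℕ, 3 ≤ x →
    ∑ p ∈ prm x, (1 : ℝ) / p ≤ Real.log (Real.log x) + C := by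
  obtain ⟨C, hC⟩ := Pool.Agent.LEV.mertens_two_pr
  refine ⟨max C 1, lt_max_of_lt_right one_pos, fun x hx => ?_⟩
  have hx2 : (2 : ℝ) ≤ x := by exact_mod_cast (by omega : 2 ≤ x)
  have h := abs_le.1 (hC x hx2)
  rw [Nat.floor_natCast] at h
  have := le_max_left C 1
  have h2 := h.2
  unfold prm
  linarith

/-- short intervals, from the prime number theorem -/
theorem pi_short (δ : ℝ) (hδ : 0 < δ) : ∃ x₀ : ℕ, ∀ x y : ℕ, x₀ ≤ x → x ≤ y → (y : ℝ) ≤ (1 + δ) * x →
    ((prm y).card : ℝ) - (prm x).card ≤ 3 * δ * x / Real.log x := by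
  set ε : ℝ := δ / (2 + δ) with hε
  have hε0 : 0 < ε := by positivity
  have hεe : ε * (2 + δ) = δ := by rw [hε]; field_simp
  have h := Pool.Agent.Lib_helper90.PNT.tendsto_primeCounting
  have h1 : ∀ᶠ n : ℕ in atTop, |(Nat.primeCounting n : ℝ) * Real.log n / n - 1| < ε :=
    (Metric.tendsto_nhds.1 h ε hε0).mono fun n hn => by rwa [Real.dist_eq] at hn
  obtain ⟨N, hN⟩ := eventually_atTop.1 h1
  refine ⟨max N 2, fun x y hx hxy hy => ?_⟩
  have hxN : N ≤ x := (le_max_left _ _).trans hx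
  have hx2 : 2 ≤ x := (le_max_right _ _).trans hx
  have hx2' : (2 : ℝ) ≤ x := by exact_mod_cast hx2
  have hxy' : (x : ℝ) ≤ y := by exact_mod_cast hxy
  have hx0 : (0 : ℝ) < x := by linarith
  have hy0 : (0 : ℝ) < y := by linarith
  have hLx : 0 < Real.log x := Real.log_pos (by linarith)
  have hLy : Real.log x ≤ Real.log y := Real.log_le_log hx0 hxy'
  have hLy0 : 0 < Real.log y := hLx.trans_le hLy
  have ax := (abs_lt.1 (hN x hxN)).1
  have ay := (abs_lt.1 (hN y (hxN.trans hxy))).2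
  rw [prm_card, prm_card]
  have bx : (1 - ε) * x / Real.log x ≤ Nat.primeCounting x := by
    rw [div_le_iff₀ hLx]
    have : 1 - ε < (Nat.primeCounting x : ℝ) * Real.log x / x := by linarith
    rw [lt_div_iff₀ hx0] at this
    exact this.le
  have bY : (Nat.primeCounting y : ℝ) ≤ (1 + ε) * ((1 + δ) * x) / Real.log x := by
    have : (Nat.primeCounting y : ℝ) * Real.log y / y < 1 + ε := by linarith
    rw [div_lt_iff₀ hy0] at this
    rw [le_div_iff₀ hLx]
    calc (Nat.primeCounting y : ℝ) * Real.log x ≤ Nat.primeCounting y * Real.log y :=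
          mul_le_mul_of_nonneg_left hLy (Nat.cast_nonneg _)
      _ ≤ (1 + ε) * y := this.le
      _ ≤ (1 + ε) * ((1 + δ) * x) := mul_le_mul_of_nonneg_left hy (by linarith)
  calc (Nat.primeCounting y : ℝ) - Nat.primeCounting x
      ≤ (1 + ε) * ((1 + δ) * x) / Real.log x - (1 - ε) * x / Real.log x := by linarith
    _ = (δ + ε * (2 + δ)) * x / Real.log x := by ring
    _ = (2 * δ) * x / Real.log x := by rw [hεe]; ring
    _ ≤ 3 * δ * x / Real.log x := by
        apply div_le_div_of_nonneg_right _ hLx.le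
        nlinarith [mul_pos hδ hx0]

end Pool.Agent.PQ
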